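import Pool.Agent.Helper99.SZ.Stmts

/-! Module CU1: the cubic field of a root of a cubic polynomial. -/

set_option autoImplicit false

namespace Pool.Helper99.SZ

open NumberField

theorem cu1_int {K : Type} [Field K] [NumberField K] (β : K) (a b c : ℤ)
    (h : β ^ 3 + (a : K) * β ^ 2 + (b : K) * β + (c : K) = 0) : IsIntegral ℤ β := by
  refine ⟨Polynomial.X ^ 3 + Polynomial.C a * Polynomial.X ^ 2 + Polynomial.C b * Polynomial.X +
    Polynomial.C c, ?_, ?_⟩
  · monicity!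
  · rw [← h]
    simp only [Polynomial.eval₂_add, Polynomial.eval₂_mul, Polynomial.eval₂_pow,
      Polynomial.eval₂_X, Polynomial.eval₂_C]
    simp only [eq_intCast]

theorem cu1_kap {K : Type} [Field K] [NumberField K] (β : K) (a b c : ℤ)
    (h : β ^ 3 + (a : K) * β ^ 2 + (b : K) * β + (c : K) = 0) :
    ∃ κ : 𝓞 K, (κ : K) = (a : K) ^ 2 - 4 * b - 2 * a * β - 3 * β ^ 2 := by
  obtain ⟨y, hy⟩ : ∃ y : 𝓞 K, (y : K) = β := ⟨⟨β, cu1_int β a b c h⟩, rfl⟩
  refine ⟨(a : 𝓞 K) ^ 2 - 4 * b - 2 * a * y - 3 * y ^ 2, ?_⟩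
  rw [← hy]
  simp only [map_sub, map_mul, map_pow, map_intCast, map_ofNat]

theorem cu1_top {K : Type} [Field K] [NumberField K] (β : K) (hd : Module.finrank ℚ K = 3)
    (hi : ∀ q : ℚ, β ≠ algebraMap ℚ K q) (S : IntermediateField ℚ K) (hS : β ∈ S) : S = ⊤ := by
  have h1 : Module.finrank ℚ S * Module.finrank S K = 3 := by
    rw [Module.finrank_mul_finrank, hd]
  have h2 : Module.finrank ℚ S = 1 ∨ Module.finrank S K = 1 := by
    have hp : Nat.Prime 3 := by norm_num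
    rcases (Nat.dvd_prime hp).1 (Dvd.intro _ h1) with h | h
    · exact Or.inl h
    · right
      rw [h] at h1
      omega
  rcases h2 with h | h
  · exfalso
    rw [IntermediateField.finrank_eq_one_iff] at h
    rw [h, IntermediateField.mem_bot] at hS
    obtain ⟨q, hq⟩ := hS
    exact hi q hq.symm
  · exact IntermediateField.finrank_eq_one_iff_eq_top.1 h

theorem cu1_ext {K : Type} [Field K] [NumberField K] (β : K) (hd : Module.finrank ℚ K = 3)
    (hi : ∀ q : ℚ, β ≠ algebraMap ℚ K q) {F : Type} [Field F] [CharZero F] (f g : K →+* F)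
    (h : f β = g β) : f = g := by
  have hS : ∀ q : ℚ, algebraMap ℚ K q ∈ RingHom.eqLocusField f g := by
    intro q
    change f (algebraMap ℚ K q) = g (algebraMap ℚ K q)
    rw [← RingHom.comp_apply, ← RingHom.comp_apply,
      RingHom.ext_rat (f.comp (algebraMap ℚ K)) (g.comp (algebraMap ℚ K))]
  have h1 := cu1_top β hd hi ((RingHom.eqLocusField f g).toIntermediateField hS) h
  ext x
  have h2 : x ∈ (RingHom.eqLocusField f g).toIntermediateField hS := by
    rw [h1]; trivial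
  exact h2

theorem cu1_vieta {F : Type} [Field F] (a b c t0 t1 t2 : F)
    (h0 : t0 ^ 3 + a * t0 ^ 2 + b * t0 + c = 0) (h1 : t1 ^ 3 + a * t1 ^ 2 + b * t1 + c = 0)
    (h2 : t2 ^ 3 + a * t2 ^ 2 + b * t2 + c = 0) (n01 : t0 ≠ t1) (n02 : t0 ≠ t2)
    (n12 : t1 ≠ t2) : t0 + t1 + t2 = -a ∧ t1 * t2 = t0 ^ 2 + a * t0 + b := by
  have e01 : t0 ^ 2 + t0 * t1 + t1 ^ 2 + a * (t0 + t1) + b = 0 := by
    apply mul_left_cancel₀ (sub_ne_zero.2 n01)
    linear_combination h0 - h1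
  have e02 : t0 ^ 2 + t0 * t2 + t2 ^ 2 + a * (t0 + t2) + b = 0 := by
    apply mul_left_cancel₀ (sub_ne_zero.2 n02)
    linear_combination h0 - h2
  have hs : t0 + t1 + t2 + a = 0 := by
    apply mul_left_cancel₀ (sub_ne_zero.2 n12)
    linear_combination e01 - e02
  refine ⟨by linear_combination hs, ?_⟩
  linear_combination t1 * hs - e01

theorem cu1_emb {K : Type} [Field K] [NumberField K] (β : K) (a b c : ℤ) (κ : 𝓞 K)
    (h : CF K β a b c κ) (F : Type) [Field F] [CharZero F] (e : Fin 3 → (K →+* F))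
    (he : Function.Injective e) :
    (∀ i j, i ≠ j → e i β ≠ e j β) ∧ e 0 β + e 1 β + e 2 β = -a ∧
      (∀ i j k, i ≠ j → i ≠ k → j ≠ k → (e j β - e k β) ^ 2 = e i (κ : K)) ∧
      e 2 (κ : K) ≠ e 1 (κ : K) := by
  have hne : ∀ i j, i ≠ j → e i β ≠ e j β := by
    intro i j hij hc
    exact hij (he (cu1_ext β h.deg h.irr (e i) (e j) hc))
  have hr : ∀ i, (e i β) ^ 3 + (a : F) * (e i β) ^ 2 + (b : F) * (e i β) + (c : F) = 0 := by
    intro i
    have h1 := congrArg (e i) h.eq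
    simpa using h1
  have hk : ∀ i, e i (κ : K) = (a : F) ^ 2 - 4 * b - 2 * a * (e i β) - 3 * (e i β) ^ 2 := by
    intro i
    rw [h.kap]
    simp only [map_sub, map_mul, map_pow, map_intCast, map_ofNat]
  have hv : ∀ i j k, i ≠ j → i ≠ k → j ≠ k → (e j β - e k β) ^ 2 = e i (κ : K) := by
    intro i j k hij hik hjk
    obtain ⟨h1, h2⟩ := cu1_vieta (a : F) b c (e i β) (e j β) (e k β) (hr i) (hr j) (hr k)
      (hne i j hij) (hne i k hik) (hne j k hjk)
    rw [hk i]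
    linear_combination (e j β + e k β - a - e i β) * h1 - 4 * h2
  have hs := (cu1_vieta (a : F) b c (e 0 β) (e 1 β) (e 2 β) (hr 0) (hr 1) (hr 2)
      (hne 0 1 (by decide)) (hne 0 2 (by decide)) (hne 1 2 (by decide))).1
  refine ⟨hne, hs, hv, ?_⟩
  intro hc
  have h1 := hv 2 0 1 (by decide) (by decide) (by decide)
  have h2 := hv 1 0 2 (by decide) (by decide) (by decide)
  have h3 : (e 1 β - e 2 β) * (3 * e 0 β + a) = 0 := by
    have h4 : (e 0 β - e 1 β) ^ 2 = (e 0 β - e 2 β) ^ 2 := by rw [h1, h2, hc]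
    linear_combination (e 1 β - e 2 β) * hs - h4
  rcases mul_eq_zero.1 h3 with h4 | h4
  · exact hne 1 2 (by decide) (sub_eq_zero.1 h4)
  · apply h.irr (-(a : ℚ) / 3)
    apply (e 0).injective
    have h5 : e 0 (algebraMap ℚ K (-(a : ℚ) / 3)) = -(a : F) / 3 := by
      simp only [map_div₀, map_neg, map_intCast, map_ofNat]
    rw [h5]
    have h6 : (3 : F) ≠ 0 := by norm_num
    field_simp
    linear_combination h4

theorem cu1_fam {K : Type} [Field K] [NumberField K] (hd : Module.finrank ℚ K = 3) :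
    ∃ e : Fin 3 → (K →+* ℂ), Function.Bijective e := by
  have h1 : Fintype.card (K →+* ℂ) = 3 := by
    rw [NumberField.Embeddings.card K ℂ, hd]
  exact ⟨(Fintype.equivFinOfCardEq h1).symm, (Fintype.equivFinOfCardEq h1).symm.bijective⟩

theorem st_CU1 : ST_CU1 := by
  refine ⟨fun K _ _ β a b c h => cu1_kap β a b c h, ?_⟩
  intro K _ _ β a b c κ h
  have e1 : (κ : K) * (3 * β ^ 2 + 2 * a * β + b) ^ 2 = dis a b c := by
    rw [h.kap]
    have h1 := h.eq
    unfold dis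
    push_cast
    linear_combination (-27 * β ^ 3 - 27 * a * β ^ 2 + (-27 * b) * β + (27 * c - 18 * a * b + 4 * a ^ 3)) * h1
  have e2 : (κ : K) + (3 * β ^ 2 + 2 * a * β + b) = (a ^ 2 - 3 * b : ℤ) := by
    rw [h.kap]
    push_cast
    ring
  obtain ⟨e, he⟩ := cu1_fam (K := K) h.deg
  obtain ⟨hne, hs, hv, -⟩ := cu1_emb β a b c κ h ℂ e he.1
  have hr : ∀ i, (e i β) ^ 3 + (a : ℂ) * (e i β) ^ 2 + (b : ℂ) * (e i β) + (c : ℂ) = 0 := by
    intro i
    have h1 := congrArg (e i) h.eq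
    simpa using h1
  obtain ⟨-, hb⟩ := cu1_vieta (a : ℂ) b c (e 0 β) (e 1 β) (e 2 β) (hr 0) (hr 1) (hr 2)
      (hne 0 1 (by decide)) (hne 0 2 (by decide)) (hne 1 2 (by decide))
  have h0 := hr 0
  have v0 := hv 0 1 2 (by decide) (by decide) (by decide)
  have v1 := hv 1 0 2 (by decide) (by decide) (by decide)
  have v2 := hv 2 0 1 (by decide) (by decide) (by decide)
  have n01 := sub_ne_zero.2 (hne 0 1 (by decide))
  have n02 := sub_ne_zero.2 (hne 0 2 (by decide))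
  have n12 := sub_ne_zero.2 (hne 1 2 (by decide))
  have hA : (a : ℂ) = -(e 0 β + e 1 β + e 2 β) := by linear_combination hs
  have hB : (b : ℂ) = e 0 β * e 1 β + e 0 β * e 2 β + e 1 β * e 2 β := by
    linear_combination -hb + (-e 0 β) * hA
  have hC : (c : ℂ) = -(e 0 β * e 1 β * e 2 β) := by
    rw [hA, hB] at h0
    linear_combination h0
  have hD : ((dis a b c : ℤ) : ℂ) = e 0 (κ : K) * e 1 (κ : K) * e 2 (κ : K) := by
    rw [← v0, ← v1, ← v2]
    unfold dis
    push_cast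
    rw [hA, hB, hC]
    ring
  have hd0 : dis a b c ≠ 0 := by
    intro h1
    rw [h1] at hD
    rw [← v0, ← v1, ← v2] at hD
    have h2 : (e 1 β - e 2 β) ^ 2 * (e 0 β - e 2 β) ^ 2 * (e 0 β - e 1 β) ^ 2 ≠ 0 :=
      mul_ne_zero (mul_ne_zero (pow_ne_zero _ n12) (pow_ne_zero _ n02)) (pow_ne_zero _ n01)
    apply h2
    rw [← hD]
    simp
  have hk0 : κ ≠ 0 := by
    intro h1
    rw [h1] at e1
    simp at e1
    exact hd0 (by exact_mod_cast e1.symm)
  refine ⟨e1, e2, ?_, hd0, hk0, fun F _ _ f hf => cu1_emb β a b c κ h F f hf⟩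
  have hN : Algebra.norm ℤ κ = dis a b c := by
    have h1 : (algebraMap ℚ ℂ) (Algebra.norm ℚ (κ : K)) = ((dis a b c : ℤ) : ℂ) := by
      rw [Algebra.norm_eq_prod_embeddings ℚ ℂ (κ : K), hD]
      have h2 : ∏ σ : K →ₐ[ℚ] ℂ, σ (κ : K) = ∏ σ : K →+* ℂ, σ (κ : K) := by
        refine Fintype.prod_equiv (RingHom.equivRatAlgHom (R := K) (S := ℂ)).symm _ _ ?_
        intro σ
        rfl
      rw [h2, ← he.prod_comp (fun σ : K →+* ℂ => σ (κ : K)), Fin.prod_univ_three]
    have h3 : ((Algebra.norm ℤ κ : ℤ) : ℚ) = Algebra.norm ℚ (κ : K) := Algebra.coe_norm_int κ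
    have h4 : (((Algebra.norm ℤ κ : ℤ) : ℚ) : ℂ) = ((dis a b c : ℤ) : ℂ) := by
      rw [h3]
      exact h1
    exact_mod_cast h4
  rw [hN]

end Pool.Helper99.SZ
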