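import Pool.Agent.Helper99.SZ.Stmts

/-! Module DEGV: values of polynomials of bounded degree on a subspace. -/

set_option autoImplicit false

namespace Pool.Helper99.SZ

/-- the span of the monomials of degree at most `d` -/
def degv_W {v : ℕ} {ι : Type} (y : ι → Fin v → ℚ) (d : ℕ) : Submodule ℚ (ι → ℚ) :=
  Submodule.span ℚ {w | ∃ e : Fin v → ℕ, ∑ k, e k ≤ d ∧ w = fun r => ∏ k, y r k ^ e k}

theorem degv_lin (n v : ℕ) (V : Submodule ℚ (Fin n → ℚ)) (hV : Module.finrank ℚ V ≤ v) :
    ∃ A : Fin v → Fin n → ℚ, ∀ x ∈ V, ∃ y : Fin v → ℚ, ∀ i, x i = ∑ k, y k * A k i := by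
  let b := Module.finBasis ℚ V
  let ψ : (Fin v → ℚ) →ₗ[ℚ] (Fin n → ℚ) :=
    V.subtype ∘ₗ b.equivFun.symm.toLinearMap ∘ₗ LinearMap.funLeft ℚ ℚ (Fin.castLE hV)
  refine ⟨fun k => ψ (Pi.single k 1), ?_⟩
  intro x hx
  refine ⟨fun k => if h : (k : ℕ) < Module.finrank ℚ V then b.equivFun ⟨x, hx⟩ ⟨k, h⟩ else 0, ?_⟩
  intro i
  have h1 : x = ψ (fun k => if h : (k : ℕ) < Module.finrank ℚ V then
      b.equivFun ⟨x, hx⟩ ⟨k, h⟩ else 0) := by
    have h2 : LinearMap.funLeft ℚ ℚ (Fin.castLE hV) (fun k => if h : (k : ℕ) <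
        Module.finrank ℚ V then b.equivFun ⟨x, hx⟩ ⟨k, h⟩ else 0) = b.equivFun ⟨x, hx⟩ := by
      ext j
      simp [LinearMap.funLeft_apply]
    change x = V.subtype (b.equivFun.symm (LinearMap.funLeft ℚ ℚ (Fin.castLE hV) _))
    rw [h2, LinearEquiv.symm_apply_apply]
    rfl
  have h3 := congrFun h1 i
  rw [LinearMap.pi_apply_eq_sum_univ ψ] at h3
  rw [h3, Finset.sum_apply]
  refine Finset.sum_congr rfl fun k _ => ?_
  have h4 : (fun j => if k = j then (1 : ℚ) else 0) = Pi.single k 1 := by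
    ext j
    simp [Pi.single_apply, eq_comm]
  rw [Pi.smul_apply, smul_eq_mul, h4]

theorem degv_mul {n v : ℕ} {ι : Type} (y : ι → Fin v → ℚ) (A : Fin v → Fin n → ℚ)
    (x : ι → Fin n → ℚ) (hx : ∀ r i, x r i = ∑ k, y r k * A k i) (i : Fin n) (d : ℕ)
    (w : ι → ℚ) (hw : w ∈ degv_W y d) : (fun r => x r i * w r) ∈ degv_W y (d + 1) := by
  unfold degv_W at hw
  induction hw using Submodule.span_induction with
  | mem w hw =>
    obtain ⟨e, he, rfl⟩ := hw
    have h1 : (fun r => x r i * ∏ k, y r k ^ e k) =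
        ∑ k, A k i • fun r => ∏ j, y r j ^ (e j + if j = k then 1 else 0) := by
      funext r
      rw [Finset.sum_apply, hx, Finset.sum_mul]
      refine Finset.sum_congr rfl fun k _ => ?_
      simp only [Pi.smul_apply, smul_eq_mul, pow_add, Finset.prod_mul_distrib]
      have h2 : ∏ j, y r j ^ (if j = k then 1 else 0) = y r k := by
        rw [Finset.prod_eq_single k]
        · simp
        · intro j _ hj
          simp [hj]
        · simp
      rw [h2]
      ring
    rw [h1]
    refine Submodule.sum_mem _ fun k _ => Submodule.smul_mem _ _ (Submodule.subset_span ?_)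
    refine ⟨fun j => e j + if j = k then 1 else 0, ?_, rfl⟩
    rw [Finset.sum_add_distrib]
    simp
    omega
  | zero =>
    have h1 : (fun r => x r i * (0 : ι → ℚ) r) = 0 := by
      funext r; simp
    rw [h1]
    exact Submodule.zero_mem _
  | add u w _ _ h1 h2 =>
    have h3 : (fun r => x r i * (u + w) r) = (fun r => x r i * u r) + fun r => x r i * w r := by
      funext r; simp [mul_add]
    rw [h3]
    exact Submodule.add_mem _ h1 h2
  | smul c u _ h1 =>
    have h3 : (fun r => x r i * (c • u) r) = c • fun r => x r i * u r := by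
      funext r; simp; ring
    rw [h3]
    exact Submodule.smul_mem _ _ h1

theorem degv_pow {n v : ℕ} {ι : Type} (y : ι → Fin v → ℚ) (A : Fin v → Fin n → ℚ)
    (x : ι → Fin n → ℚ) (hx : ∀ r i, x r i = ∑ k, y r k * A k i) (i : Fin n) (d m : ℕ)
    (w : ι → ℚ) (hw : w ∈ degv_W y d) : (fun r => x r i ^ m * w r) ∈ degv_W y (d + m) := by
  induction m with
  | zero => simpa using hw
  | succ m ih =>
    have h1 := degv_mul y A x hx i (d + m) _ ih
    have h2 : (fun r => x r i ^ (m + 1) * w r) = fun r => x r i * (x r i ^ m * w r) := by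
      funext r; ring
    rw [h2]
    exact h1

theorem degv_mon {n v : ℕ} {ι : Type} (y : ι → Fin v → ℚ) (A : Fin v → Fin n → ℚ)
    (x : ι → Fin n → ℚ) (hx : ∀ r i, x r i = ∑ k, y r k * A k i) (m : Fin n → ℕ)
    (S : Finset (Fin n)) : (fun r => ∏ i ∈ S, x r i ^ m i) ∈ degv_W y (∑ i ∈ S, m i) := by
  induction S using Finset.induction_on with
  | empty =>
    apply Submodule.subset_span
    exact ⟨fun _ => 0, by simp, by funext r; simp⟩
  | insert i S hi ih =>
    have h1 := degv_pow y A x hx i _ (m i) _ ih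
    have h2 : (fun r => ∏ j ∈ insert i S, x r j ^ m j) =
        fun r => x r i ^ m i * ∏ j ∈ S, x r j ^ m j := by
      funext r
      rw [Finset.prod_insert hi]
    rw [h2, Finset.sum_insert hi, add_comm]
    exact h1

theorem st_DEGV : ST_DEGV := by
  intro n v s ι _ V hV z hz
  obtain ⟨A, hA⟩ := degv_lin n v V hV
  choose y hy using fun r => hA _ (hz r)
  refine ⟨Submodule.span ℚ (Set.range fun e : Fin v → Fin (s + 1) =>
    fun r => ∏ k, y r k ^ (e k : ℕ)), ?_, ?_⟩
  · have h1 := finrank_range_le_card (R := ℚ) (fun e : Fin v → Fin (s + 1) =>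
      fun r => ∏ k, y r k ^ (e k : ℕ))
    simpa [Set.finrank] using h1
  · intro f hf
    have h1 : degv_W y s ≤ Submodule.span ℚ (Set.range fun e : Fin v → Fin (s + 1) =>
        fun r => ∏ k, y r k ^ (e k : ℕ)) := by
      apply Submodule.span_mono
      rintro w ⟨e, he, rfl⟩
      have h2 : ∀ k, e k < s + 1 := by
        intro k
        have h3 : e k ≤ ∑ j, e j := Finset.single_le_sum (fun _ _ => Nat.zero_le _)
          (Finset.mem_univ k)
        omega
      exact ⟨fun k => ⟨e k, h2 k⟩, rfl⟩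
    apply h1
    have h2 : (fun r => MvPolynomial.eval (fun i => ((z r i : ℤ) : ℚ)) f) =
        ∑ m ∈ f.support, MvPolynomial.coeff m f • fun r => ∏ i, ((z r i : ℤ) : ℚ) ^ m i := by
      funext r
      rw [MvPolynomial.eval_eq', Finset.sum_apply]
      rfl
    rw [h2]
    refine Submodule.sum_mem _ fun m hm => Submodule.smul_mem _ _ ?_
    have h3 := degv_mon y A (fun r i => ((z r i : ℤ) : ℚ)) hy m Finset.univ
    have h4 : ∑ i, m i ≤ s := by
      have h5 := MvPolynomial.le_totalDegree hm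
      rw [Finsupp.sum_fintype _ _ (fun _ => rfl)] at h5
      omega
    refine Submodule.span_mono ?_ h3
    rintro w ⟨e, he, rfl⟩
    exact ⟨e, by omega, rfl⟩

end Pool.Helper99.SZ
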