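import Pool.Agent.Helper99.SZ.Stmts

/-! Module PR0: the start of the recursion. -/

set_option autoImplicit false

namespace Pool.Helper99.SZ

open NumberField

theorem st_PR0 (hDVB : ST_DVB) (hPLV : ST_PLV) : ST_PR0 := by
  intro n D
  refine ⟨3 * D + 3, by have : (0 : ℝ) ≤ D := Nat.cast_nonneg D
                        linarith, 0, ?_⟩
  intro L _ _ hD P p g0 g nrm U Z ℓ T hU hZ hl hlU hlZ hlp hPD V hV hc
  have hD0 : (0 : ℝ) ≤ D := Nat.cast_nonneg D
  have hV0 : V = ⊥ := Submodule.finrank_eq_zero.1 hV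
  subst hV0
  rw [pow_zero, pow_zero, mul_one, mul_one] at hc
  -- the norm
  have hn0 : nrm 0 = 0 := by
    have h1 := hPD.smul 0 0
    simpa using h1
  have hneg : ∀ a, nrm (-a) = nrm a := by
    intro a
    have h1 := hPD.smul (-1) a
    simpa using h1
  have hnn : ∀ a, 0 ≤ nrm a := by
    intro a
    have h1 := hPD.add a (-a)
    rw [add_neg_cancel, hn0, hneg] at h1
    linarith
  set S : Set (ℤ × (Fin n → ℤ)) := {a : ℤ × (Fin n → ℤ) | nrm a ≤ U / (3 * (D : ℝ) + 3) ∧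
        (fun i => ((a.2 i : ℤ) : ℚ)) ∈ (⊥ : Submodule ℚ (Fin n → ℚ))} with hS
  have hC : (3 : ℝ) ≤ 3 * (D : ℝ) + 3 := by linarith
  have h3 : 1 < S.ncard := by
    have h4 : (3 : ℝ) ≤ (S.ncard : ℝ) := le_trans hC hc
    have h5 : 3 ≤ S.ncard := by exact_mod_cast h4
    omega
  have hfin : S.Finite := Set.finite_of_ncard_pos (by omega)
  obtain ⟨x, hx, y, hy, hxy⟩ := (Set.one_lt_ncard hfin).1 h3
  have hz : ∀ a ∈ S, a.2 = 0 := by
    intro a ha
    have h4 := ha.2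
    rw [Submodule.mem_bot] at h4
    funext i
    have h5 := congrFun h4 i
    simpa using h5
  have hx2 := hz x hx
  have hy2 := hz y hy
  have hxy1 : x.1 - y.1 ≠ 0 := by
    intro h4
    apply hxy
    exact Prod.ext (by omega) (by rw [hx2, hy2])
  have hsub : x - y = (x.1 - y.1) • ((1 : ℤ), (0 : Fin n → ℤ)) := by
    apply Prod.ext
    · simp
    · simp [hx2, hy2]
  have hUC : U / (3 * (D : ℝ) + 3) ≤ U / 2 := by
    apply div_le_div_of_nonneg_left <;> linarith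
  have h10 : nrm ((1 : ℤ), (0 : Fin n → ℤ)) ≤ U := by
    have h4 : nrm (x - y) ≤ U := by
      have h5 := hPD.add x (-y)
      rw [hneg, ← sub_eq_add_neg] at h5
      have h6 := hx.1
      have h7 := hy.1
      linarith
    rw [hsub, hPD.smul] at h4
    have h5 : (1 : ℝ) ≤ |((x.1 - y.1 : ℤ) : ℝ)| := by
      have h6 : (1 : ℤ) ≤ |x.1 - y.1| := Int.one_le_abs hxy1
      exact_mod_cast h6
    have h7 := hnn ((1 : ℤ), (0 : Fin n → ℤ))
    nlinarith
  have hval : g0 ^ ((1 : ℤ), (0 : Fin n → ℤ)).1 * ∏ i, g i ^ (((1 : ℤ), (0 : Fin n → ℤ)).2 i) =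
      g0 := by simp
  obtain ⟨q, hq0, hqU, hqi⟩ := hPD.den ((1 : ℤ), (0 : Fin n → ℤ))
  rw [hval] at hqi
  have hqU' : (q : ℝ) ≤ Real.exp U := le_trans hqU (Real.exp_le_exp.2 h10)
  obtain ⟨_, _, hadd, hnegD, hmulD, _, _, _, hmem⟩ := hDVB L P hPD.pr hPD.bot
  have hint : IsIntegral ℤ ((q : L) * (g0 - 1)) := by
    have h4 : (q : L) * (g0 - 1) = (q : L) * g0 - (q : L) := by ring
    rw [h4]
    exact hqi.sub (isIntegral_natCast (R := ℤ) q)
  obtain ⟨w, hw⟩ : ∃ w : 𝓞 L, (w : L) = (q : L) * (g0 - 1) := ⟨⟨_, hint⟩, rfl⟩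
  have hq1 : (q : L) ≠ 0 := Nat.cast_ne_zero.2 hq0.ne'
  have hw0 : w ≠ 0 := by
    intro h4
    rw [h4] at hw
    have h5 : (q : L) * (g0 - 1) = 0 := by rw [← hw]; simp
    rcases mul_eq_zero.1 h5 with h6 | h6
    · exact hq1 h6
    · exact hPD.ne0 (sub_eq_zero.1 h6)
  have hqD : Dv P 0 (q : L) := by
    have h4 := (hDVB L P hPD.pr hPD.bot).1 (q : 𝓞 L)
    simpa using h4
  have hwD : Dv P T (w : L) := by
    have h4 := hmulD 0 T (q : L) (g0 - 1) hqD hPD.T0
    rw [zero_add, ← hw] at h4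
    exact h4
  have hwP : w ∈ P ^ T := hmem T w hwD
  have hconj : ∀ τ : L →+* ℂ, ‖τ (w : L)‖ ≤ Real.exp (3 * U) := by
    intro τ
    rw [hw, map_mul, norm_mul, map_natCast, map_sub, map_one]
    have h4 := hPD.conj ((1 : ℤ), (0 : Fin n → ℤ)) τ
    rw [hval] at h4
    have h5 : ‖τ g0‖ ≤ Real.exp U := le_trans h4 (Real.exp_le_exp.2 h10)
    have h6 : ‖τ g0 - 1‖ ≤ Real.exp U + 1 := by
      refine le_trans (norm_sub_le _ _) ?_
      simpa using h5
    have h7 : ‖(q : ℂ)‖ = (q : ℝ) := by simp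
    rw [h7]
    have h8 : (2 : ℝ) ≤ Real.exp U := by
      have := Real.add_one_le_exp U
      linarith
    have h9 : Real.exp (3 * U) = Real.exp U * (Real.exp U * Real.exp U) := by
      rw [← Real.exp_add, ← Real.exp_add]
      ring_nf
    rw [h9]
    have h11 : Real.exp U + 1 ≤ Real.exp U * Real.exp U := by nlinarith
    exact mul_le_mul hqU' (le_trans h6 h11) (norm_nonneg _) (by linarith)
  have h1e : (1 : ℝ) ≤ Real.exp (3 * U) := Real.one_le_exp (by linarith)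
  have hfinal := hPLV L P hPD.pr hPD.bot p hPD.pp hPD.pm T w hw0 hwP (Real.exp (3 * U)) h1e hconj
  rw [Real.log_exp] at hfinal
  have hDr : (Module.finrank ℚ L : ℝ) ≤ D := by exact_mod_cast hD
  rw [pow_zero, mul_one]
  have h12 : (Module.finrank ℚ L : ℝ) * (3 * U) ≤ D * (3 * U) :=
    mul_le_mul_of_nonneg_right hDr (by linarith)
  nlinarith

end Pool.Helper99.SZ
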